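import Mathlib
import Pool.Agent.Helper692_MAF.Main

/-! Torus-stabilised rigidity of bundles over compact quotients of contractible Lie groups:
controlled homeomorphism over `B × Tⁿ`. -/

universe g u v w

namespace Pool.Agent.Results.MP_53ef4d_gt.LieQuotientControlled

open Pool.Agent.Helper692_MAF

/-- Let `B` be a compact metric space homeomorphic to `G ⧸ Γ`, where `G` is a topological group
with a chain of length `n` (for instance any contractible Lie group of dimension `n`) and `Γ` is a
discrete subgroup. Let `p : M → B` and `q : N → B` be locally trivial with `M` and `N` compact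
Hausdorff, and let `h : M → N` be a homeomorphism with `q ∘ h` homotopic to `p`. Then
`p × id : M × Tⁿ → B × Tⁿ` and `q × id : N × Tⁿ → B × Tⁿ` are controlled homeomorphic. -/
theorem result {n : ℕ} {G : Type g} [Group G] [TopologicalSpace G] [IsTopologicalGroup G]
    (hG : RealChain n G) {Γ : Subgroup G} (hΓ : IsDiscrete (Γ : Set G)) {B : Type v}
    [MetricSpace B] [CompactSpace B] (e : B ≃ₜ G ⧸ Γ)
    {M N : Type u} [TopologicalSpace M] [CompactSpace M] [T2Space M]
    [TopologicalSpace N] [CompactSpace N] [T2Space N] (p : C(M, B)) (q : C(N, B))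
    (hp : LocTriv p) (hq : LocTriv q) (h : M ≃ₜ N)
    (hom : ContinuousMap.Homotopic (q.comp (h : C(M, N))) p) :
    ControlledHomeo.{u, v, w} (fun z : M × (Fin n → UnitAddCircle) => (p z.1, z.2))
      (fun z : N × (Fin n → UnitAddCircle) => (q z.1, z.2)) :=
  controlled_solv hG hΓ e p q hp hq h hom

end Pool.Agent.Results.MP_53ef4d_gt.LieQuotientControlled
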