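import Mathlib
import Pool.Agent.Helper692_MAF.Main

/-! Torus-stabilised rigidity of bundles over compact quotients of contractible Lie groups:
fibre-preserving homeomorphisms over `B`. -/

universe g u v

namespace Pool.Agent.Results.MP_53ef4d_gt.LieQuotientExact

open Pool.Agent.Helper692_MAF

/-- Let `B` be a compact Hausdorff space homeomorphic to `G ⧸ Γ`, where `G` is a topological group
with a chain of length `n` and `Γ` is a discrete subgroup. Let `p : M → B` and `q : N → B` be
locally trivial with `M` and `N` compact Hausdorff, and let `h : M → N` be a homeomorphism with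
`q ∘ h` homotopic to `p`. Then for every `ε > 0` there is a homeomorphism `M × Tⁿ → N × Tⁿ` which
preserves the projections to `B` exactly and moves the coordinate in `Tⁿ` by less than `ε`. -/
theorem result {n : ℕ} {G : Type g} [Group G] [TopologicalSpace G] [IsTopologicalGroup G]
    (hG : RealChain n G) {Γ : Subgroup G} (hΓ : IsDiscrete (Γ : Set G)) {B : Type v}
    [TopologicalSpace B] [CompactSpace B] [T2Space B] (e : B ≃ₜ G ⧸ Γ)
    {M N : Type u} [TopologicalSpace M] [CompactSpace M] [T2Space M]
    [TopologicalSpace N] [CompactSpace N] [T2Space N] (p : C(M, B)) (q : C(N, B))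
    (hp : LocTriv p) (hq : LocTriv q) (h : M ≃ₜ N)
    (hom : ContinuousMap.Homotopic (q.comp (h : C(M, N))) p) (ε : ℝ) (hε : 0 < ε) :
    ∃ k : M × (Fin n → UnitAddCircle) ≃ₜ N × (Fin n → UnitAddCircle),
      (∀ z, q (k z).1 = p z.1) ∧ ∀ z, dist (k z).2 z.2 < ε :=
  exact_solv hG hΓ e p q hp hq h hom ε hε

end Pool.Agent.Results.MP_53ef4d_gt.LieQuotientExact
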